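import Pool.Agent.W739.CY.Stm

/-!
Project CY (helper739), part D1: the new colorings for `q ≥ 5`.
-/

set_option autoImplicit false

namespace Pool.Agent.W357.CY

open Finset Pool.Agent.W739.CY

section spl

variable {C : Type}

lemma spl_zero (w : List C) : spl (fun _ _ _ => (0 : ℝ)) w = 0 := by
  induction w with
  | nil => rfl
  | cons x w ih =>
    show (0 : ℝ) + spl (fun _ _ _ => (0 : ℝ)) w = 0
    rw [ih, add_zero]

lemma spl_congr (w : List C) : ∀ {f g : List C → C → List C → ℝ},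
    (∀ v c u, w = v ++ c :: u → f v c u = g v c u) → spl f w = spl g w := by
  induction w with
  | nil => intro f g _; rfl
  | cons x w ih =>
    intro f g h
    show f [] x w + spl (fun v c u => f (x :: v) c u) w =
      g [] x w + spl (fun v c u => g (x :: v) c u) w
    rw [h [] x w rfl, ih fun v c u hw => h (x :: v) c u (by rw [hw]; rfl)]

lemma spl_mul (k : ℝ) (w : List C) : ∀ f : List C → C → List C → ℝ,
    spl (fun v c u => k * f v c u) w = k * spl f w := by
  induction w with
  | nil => intro f; exact (mul_zero k).symm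
  | cons x w ih =>
    intro f
    show k * f [] x w + spl (fun v c u => k * f (x :: v) c u) w =
      k * (f [] x w + spl (fun v c u => f (x :: v) c u) w)
    rw [ih, mul_add]

lemma spl_snoc (w : List C) : ∀ (f : List C → C → List C → ℝ) (x : C),
    spl f (w ++ [x]) = spl (fun v c u => f v c (u ++ [x])) w + f w x [] := by
  induction w with
  | nil =>
    intro f x
    show f [] x [] + 0 = 0 + f [] x []
    ring
  | cons y w ih =>
    intro f x
    show f [] y (w ++ [x]) + spl (fun v c u => f (y :: v) c u) (w ++ [x]) =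
      (f [] y (w ++ [x]) + spl (fun v c u => f (y :: v) c (u ++ [x])) w) + f (y :: w) x []
    rw [ih]
    ring

lemma spl_reverse (w : List C) : ∀ f : List C → C → List C → ℝ,
    spl f w.reverse = spl (fun v c u => f u.reverse c v.reverse) w := by
  induction w with
  | nil => intro f; rfl
  | cons x w ih =>
    intro f
    rw [List.reverse_cons, spl_snoc, ih]
    show _ = f w.reverse x [] + spl (fun v c u => f u.reverse c (x :: v).reverse) w
    simp only [List.reverse_cons]
    ring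

end spl

lemma sum1 {q : ℕ} (g : List (Fin q) → ℝ) :
    ∑ s : Fin 1 → Fin q, g (List.ofFn s) = ∑ x : Fin q, g [x] := by
  refine Fintype.sum_equiv (Equiv.funUnique (Fin 1) (Fin q)) _ _ fun s => ?_
  congr 1

section main

variable {C : Type} [DecidableEq C] [Fintype C]

/-- star sum of `T p (-p)` -/
lemma E2 (hE1 : S_E1) (hROT : S_ROT) (hMIR : S_MIR) {p : ℝ} (hG : Good p) (hG' : Good p⁻¹)
    (hq' : (Fintype.card C : ℝ) * p⁻¹ = (1 + p⁻¹) ^ 2) (w : List C) (hw : 1 ≤ w.length) :
    ∑ x : C, T p (-p) (w ++ [x]) =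
      p ^ (w.length + 1) * (1 + p) * (1 - p ^ w.length) * F p none w none +
      p ^ w.length * spl (fun v b u => F p none v (some b) * F p (some b) u none) w := by
  have hp : p ≠ 0 := hG.ne
  have h1 : ∀ x : C, T p (-p) (w ++ [x]) = (-p) ^ (w.length + 1) * T p⁻¹ 1 (w.reverse ++ [x]) := by
    intro x
    have h2 := (hMIR C p hG).2 (x :: w.reverse)
    rw [List.reverse_cons, List.reverse_reverse, List.length_cons, List.length_reverse] at h2
    rw [h2, (hROT C p⁻¹ 1 hG').1]
  rw [Finset.sum_congr rfl fun x _ => h1 x, ← Finset.mul_sum, hE1 C p⁻¹ hG' hq' w.reverse,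
    List.length_reverse, (hMIR C p hG).1 none none w.reverse, List.length_reverse,
    List.reverse_reverse]
  have h3 : spl (fun v b u => F p⁻¹ none v (some b) * F p⁻¹ (some b) u none) w.reverse =
      (-p) ^ (w.length - 1) *
        spl (fun v b u => F p none v (some b) * F p (some b) u none) w := by
    rw [spl_reverse, ← spl_mul]
    apply spl_congr
    intro v c u hvu
    rw [(hMIR C p hG).1 none (some c) u.reverse, (hMIR C p hG).1 (some c) none v.reverse,
      List.reverse_reverse, List.reverse_reverse, List.length_reverse, List.length_reverse]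
    have h4 : w.length - 1 = u.length + v.length := by
      rw [hvu, List.length_append, List.length_cons]
      omega
    rw [h4, pow_add]
    ring
  rw [h3]
  obtain ⟨m, hm⟩ : ∃ m, w.length = m + 1 := ⟨w.length - 1, by omega⟩
  rw [hm, Nat.add_sub_cancel]
  set W := F p none w none
  set S := spl (fun v b u => F p none v (some b) * F p (some b) u none) w
  have e1 : (1 + p⁻¹) / p⁻¹ = 1 + p := by field_simp; ring
  have e2 : (-p) ^ (m + 1 + 1) * (-p) ^ (m + 1) = -(p ^ (2 * m + 3)) := by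
    rw [← pow_add]
    have : m + 1 + 1 + (m + 1) = 2 * (m + 1) + 1 := by ring
    rw [this, pow_succ, pow_mul, neg_sq, ← pow_mul]
    ring
  have e3 : (-p) ^ (m + 1 + 1) * (-p) ^ m = p ^ (2 * m + 2) := by
    rw [← pow_add]
    have : m + 1 + 1 + m = 2 * (m + 1) := by ring
    rw [this, pow_mul, neg_sq, ← pow_mul]
    ring
  have e4 : p ^ (m + 1) * p⁻¹ ^ (m + 1) = 1 := by
    rw [← mul_pow, mul_inv_cancel₀ hp, one_pow]
  calc (-p) ^ (m + 1 + 1) * ((1 + p⁻¹) / p⁻¹ * (1 - p⁻¹ ^ (m + 1)) * ((-p) ^ (m + 1) * W) +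
        p⁻¹ ^ (m + 1) * ((-p) ^ m * S))
      = ((-p) ^ (m + 1 + 1) * (-p) ^ (m + 1)) * (1 + p) * (1 - p⁻¹ ^ (m + 1)) * W +
        ((-p) ^ (m + 1 + 1) * (-p) ^ m) * p⁻¹ ^ (m + 1) * S := by rw [e1]; ring
    _ = p ^ (m + 1 + 1) * (1 + p) * (p ^ (m + 1) * p⁻¹ ^ (m + 1) - p ^ (m + 1)) * W +
        p ^ (m + 1) * (p ^ (m + 1) * p⁻¹ ^ (m + 1)) * S := by rw [e2, e3]; ring
    _ = p ^ (m + 1 + 1) * (1 + p) * (1 - p ^ (m + 1)) * W + p ^ (m + 1) * S := by
        rw [e4]; ring

lemma diff (hE1 : S_E1) (hROT : S_ROT) (hMIR : S_MIR) {p : ℝ} (hG : Good p) (hG' : Good p⁻¹)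
    (hq : (Fintype.card C : ℝ) * p = (1 + p) ^ 2)
    (hq' : (Fintype.card C : ℝ) * p⁻¹ = (1 + p⁻¹) ^ 2) (w : List C) (hw : 1 ≤ w.length) :
    ∑ x : C, T p 1 (w ++ [x]) - ∑ x : C, T p (-p) (w ++ [x]) =
      (1 + p) / p * (1 - p ^ w.length) * (1 - p ^ (w.length + 2)) * F p none w none := by
  have hp : p ≠ 0 := hG.ne
  rw [hE1 C p hG hq w, E2 hE1 hROT hMIR hG hG' hq' w hw]
  field_simp
  ring

end main

/-- the constant -/
noncomputable def lam (p : ℝ) : ℝ := p * (1 - p) / (1 + p)

noncomputable def PP {q : ℕ} (p : ℝ) (w : List (Fin q)) : ℝ :=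
  lam p ^ w.length * (1 - p) / (1 - p ^ (w.length + 1)) * F p none w none

noncomputable def kap (p : ℝ) (n : ℕ) : ℝ :=
  lam p ^ n / ((1 - p ^ (n - 1)) * (1 - p ^ n) * (1 - p ^ (n + 1)))

noncomputable def CC {q : ℕ} (p : ℝ) (w : List (Fin q)) : ℝ :=
  kap p w.length / 2 * (T p 1 w + T p 1 w.reverse - T p (-p) w - T p (-p) w.reverse)

lemma exists_p {q : ℕ} (hq : 5 ≤ q) : ∃ p : ℝ, 0 < p ∧ p < 1 ∧ (q : ℝ) * p = (1 + p) ^ 2 := by
  have hq' : (5 : ℝ) ≤ q := by exact_mod_cast hq
  set s := Real.sqrt ((q : ℝ) * (q - 4)) with hs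
  have hs2 : s ^ 2 = (q : ℝ) * (q - 4) := Real.sq_sqrt (by nlinarith)
  have h0 : 0 ≤ s := Real.sqrt_nonneg _
  have h1 : s < q - 2 := by nlinarith
  have h2 : (q : ℝ) - 4 < s := by nlinarith
  refine ⟨((q : ℝ) - 2 - s) / 2, by linarith, by linarith, ?_⟩
  nlinarith

theorem t_D1 (hDEL : S_DEL) (hE1 : S_E1) (hGAP : S_GAP) (hROT : S_ROT) (hMIR : S_MIR)
    (hWREV : S_WREV) (hPOS : S_POS) (hSYM : S_SYM) : S_D1 := by
  intro q hq
  obtain ⟨p, hp0, hp1, hqp⟩ := exists_p hq
  have hp : p ≠ 0 := hp0.ne'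
  have hG : Good p := ⟨hp0, hp1.ne⟩
  have hG' : Good p⁻¹ := ⟨inv_pos.2 hp0, fun h => hp1.ne (inv_eq_one.1 h)⟩
  have hc : (Fintype.card (Fin q) : ℝ) * p = (1 + p) ^ 2 := by rw [Fintype.card_fin]; exact hqp
  have hc' : (Fintype.card (Fin q) : ℝ) * p⁻¹ = (1 + p⁻¹) ^ 2 := by
    have : (Fintype.card (Fin q) : ℝ) * p⁻¹ = ((Fintype.card (Fin q) : ℝ) * p) * (p⁻¹) ^ 2 := by
      field_simp
    rw [this, hc]
    field_simp
    ring
  have hpow : ∀ n : ℕ, 0 ≤ 1 - p ^ n := fun n => sub_nonneg.2 (pow_le_one₀ hp0.le hp1.le)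
  have hlam : 0 < lam p := by
    unfold lam
    have : 0 < 1 - p := by linarith
    positivity
  have hrotr : ∀ (z : ℝ) (x : Fin q) (w : List (Fin q)),
      T p z (x :: w).reverse = T p z (w ++ [x]).reverse := by
    intro z x w
    rw [List.reverse_cons, List.reverse_append, List.reverse_singleton, List.singleton_append,
      (hROT (Fin q) p z hG).1]
  refine ⟨⟨PP p, CC p, ?_, ?_, ?_, ?_, ?_, ?_, ?_⟩⟩
  · unfold PP
    rw [(hDEL (Fin q) p hG none none).1]
    have h1 : (1 : ℝ) - p ≠ 0 := by linarith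
    have h2 : ok (none : Option (Fin q)) none := Or.inl rfl
    simp [h2, h1]
  · intro u v
    have e0 : ∑ s : Fin 1 → Fin q, PP p (u ++ List.ofFn s ++ v) =
        ∑ x : Fin q, PP p (u ++ x :: v) := by
      rw [sum1 (fun l => PP p (u ++ l ++ v))]
      refine Finset.sum_congr rfl fun x _ => ?_
      rw [List.append_assoc, List.singleton_append]
    rw [e0]
    have e1 : ∀ x : Fin q, PP p (u ++ x :: v) =
        lam p ^ (u.length + v.length + 1) * (1 - p) / (1 - p ^ (u.length + v.length + 2)) *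
          F p none (u ++ x :: v) none := by
      intro x
      unfold PP
      have : (u ++ x :: v).length = u.length + v.length + 1 := by
        rw [List.length_append, List.length_cons]; ring
      rw [this]
    rw [Finset.sum_congr rfl fun x _ => e1 x, ← Finset.mul_sum,
      hGAP (Fin q) p hG hc none none u v (Or.inl rfl)]
    have e2 : ∀ (f g : List (Fin q) → Fin q → List (Fin q) → ℝ) (w : List (Fin q)),
        spl (fun a y b => if some y = (none : Option (Fin q)) then f a y b else 0) w = 0 := by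
      intro f _ w
      have : (fun a y b => if some y = (none : Option (Fin q)) then f a y b else 0) =
          (fun (_ : List (Fin q)) (_ : Fin q) (_ : List (Fin q)) => (0 : ℝ)) := by
        funext a y b
        simp
      rw [this, spl_zero]
    rw [e2 _ (fun _ _ _ => 0), e2 _ (fun _ _ _ => 0)]
    unfold PP al be lam
    set a := u.length
    set b := v.length
    set Wu := F p none u none
    set Wv := F p none v none
    have n1 : 1 - p ^ (a + 1) ≠ 0 := hG.sub a
    have n2 : 1 - p ^ (b + 1) ≠ 0 := hG.sub b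
    have n3 : 1 - p ^ (a + b + 2) ≠ 0 := hG.sub (a + b + 1)
    have n4 : (1 : ℝ) + p ≠ 0 := by positivity
    have n5 : p ^ (a + b + 2) = p ^ (a + 1) * p ^ (b + 1) := by ring
    rw [n5] at n3 ⊢
    generalize p ^ (a + 1) = X at *
    generalize p ^ (b + 1) = Y at *
    have n6 : (p * (1 - p) / (1 + p)) ^ (a + b + 1) = (p * (1 - p) / (1 + p)) ^ a *
        (p * (1 - p) / (1 + p)) ^ b * (p * (1 - p) / (1 + p)) := by ring
    rw [n6]
    generalize (p * (1 - p) / (1 + p)) ^ a = L1
    generalize (p * (1 - p) / (1 + p)) ^ b = L2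
    simp only [if_true, sub_zero]
    field_simp
    ring
  · intro w
    unfold CC kap
    have h1 := (hPOS (Fin q) p hp0 hp1).2 w
    have h2 := (hPOS (Fin q) p hp0 hp1).2 w.reverse
    have h3 := le_abs_self (T p (-p) w)
    have h4 := le_abs_self (T p (-p) w.reverse)
    refine mul_nonneg ?_ (by linarith)
    refine div_nonneg (div_nonneg (pow_nonneg hlam.le _) ?_) zero_le_two
    exact mul_nonneg (mul_nonneg (hpow _) (hpow _)) (hpow _)
  · intro x w
    unfold CC
    rw [hrotr 1 x w, hrotr (-p) x w, (hROT (Fin q) p 1 hG).1 x w, (hROT (Fin q) p (-p) hG).1 x w]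
    have : (x :: w).length = (w ++ [x]).length := by simp
    rw [this]
  · intro σ w
    unfold CC
    rw [List.length_map, ← List.map_reverse]
    rw [(hSYM (Fin q) p 1 hG).1 w σ, (hSYM (Fin q) p 1 hG).1 w.reverse σ,
      (hSYM (Fin q) p (-p) hG).1 w σ, (hSYM (Fin q) p (-p) hG).1 w.reverse σ]
  · intro x w
    unfold CC
    have h1 : ∀ z : ℝ, T p z (x :: x :: w).reverse = 0 := by
      intro z
      rw [List.reverse_cons, ← (hROT (Fin q) p z hG).1, List.reverse_cons, ← List.cons_append,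
        ← (hROT (Fin q) p z hG).1]
      exact (hSYM (Fin q) p z hG).2 x _
    rw [h1, h1, (hSYM (Fin q) p 1 hG).2, (hSYM (Fin q) p (-p) hG).2]
    ring
  · intro w hw
    have hw1 : 1 ≤ w.length := by omega
    rw [sum1 (fun l => CC p (w ++ l))]
    unfold CC
    have hlen : ∀ x : Fin q, (w ++ [x]).length = w.length + 1 := by intro x; simp
    have hrev : ∀ (z : ℝ) (x : Fin q), T p z (w ++ [x]).reverse = T p z (w.reverse ++ [x]) := by
      intro z x
      rw [List.reverse_append, List.reverse_singleton, List.singleton_append,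
        (hROT (Fin q) p z hG).1]
    have e1 : ∀ x : Fin q, kap p (w ++ [x]).length / 2 * (T p 1 (w ++ [x]) +
        T p 1 (w ++ [x]).reverse - T p (-p) (w ++ [x]) - T p (-p) (w ++ [x]).reverse) =
        kap p (w.length + 1) / 2 * (T p 1 (w ++ [x]) +
        T p 1 (w.reverse ++ [x]) - T p (-p) (w ++ [x]) - T p (-p) (w.reverse ++ [x])) := by
      intro x
      rw [hlen, hrev, hrev]
    rw [Finset.sum_congr rfl fun x _ => e1 x, ← Finset.mul_sum, Finset.sum_sub_distrib,
      Finset.sum_sub_distrib, Finset.sum_add_distrib]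
    have d1 := diff hE1 hROT hMIR hG hG' hc hc' w hw1
    have d2 := diff hE1 hROT hMIR hG hG' hc hc' w.reverse (by rw [List.length_reverse]; exact hw1)
    rw [List.length_reverse, hWREV (Fin q) p hG w] at d2
    have e2 : ∑ x : Fin q, T p 1 (w ++ [x]) + ∑ x : Fin q, T p 1 (w.reverse ++ [x]) -
        ∑ x : Fin q, T p (-p) (w ++ [x]) - ∑ x : Fin q, T p (-p) (w.reverse ++ [x]) =
        2 * ((1 + p) / p * (1 - p ^ w.length) * (1 - p ^ (w.length + 2)) *
          F p none w none) := by
      linarith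
    rw [e2]
    unfold kap PP lam
    rw [Nat.add_sub_cancel]
    obtain ⟨m, hm⟩ : ∃ m, w.length = m + 1 := ⟨w.length - 1, by omega⟩
    rw [hm]
    have n1 : 1 - p ^ (m + 1) ≠ 0 := hG.sub m
    have n2 : 1 - p ^ (m + 1 + 1) ≠ 0 := hG.sub (m + 1)
    have n3 : 1 - p ^ (m + 1 + 1 + 1) ≠ 0 := hG.sub (m + 1 + 1)
    have n4 : (1 : ℝ) + p ≠ 0 := by positivity
    have n5 : (p * (1 - p) / (1 + p)) ^ (m + 1 + 1) = (p * (1 - p) / (1 + p)) ^ (m + 1) *
        (p * (1 - p) / (1 + p)) := pow_succ _ _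
    rw [n5]
    generalize (p * (1 - p) / (1 + p)) ^ (m + 1) = L
    have n6 : m + 1 + 2 = m + 1 + 1 + 1 := rfl
    rw [n6]
    generalize F p none w none = W
    generalize p ^ (m + 1) = X at *
    generalize p ^ (m + 1 + 1) = Y at *
    generalize p ^ (m + 1 + 1 + 1) = Z at *
    field_simp

end Pool.Agent.W357.CY
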